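import Pool.Agent.W477.ER.Stm

/-!
# The Clements-Lindstroem inequality in a box with sides k1, k2 and q (several times)
-/

set_option autoImplicit false

namespace Pool.Agent.W646.ER

open Finset Pool.Agent.W477.ER

/-! ### digit sums -/

theorem ds_zero (q : ℕ) : ds q 0 = 0 := by
  simp [ds]

theorem ds_add {q u c : ℕ} (hq : 2 ≤ q) (hc : c < q) : ds q (q * u + c) = ds q u + c := by
  by_cases h : c = 0 ∧ u = 0
  · obtain ⟨rfl, rfl⟩ := h
    simp [ds]
  · have h1 : c ≠ 0 ∨ u ≠ 0 := by
      by_contra h2
      push Not at h2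
      exact h h2
    unfold ds
    rw [show q * u + c = c + q * u by ring, Nat.digits_add q (by omega) c u hc h1, List.sum_cons]
    ring

theorem ds_small {q c : ℕ} (hq : 2 ≤ q) (hc : c < q) : ds q c = c := by
  have h := ds_add (u := 0) hq hc
  rw [mul_zero, zero_add, ds_zero, zero_add] at h
  exact h

theorem ds_step {q : ℕ} (hq : 2 ≤ q) (t : ℕ) : ds q t = ds q (t / q) + t % q := by
  conv_lhs => rw [← Nat.div_add_mod t q]
  exact ds_add hq (Nat.mod_lt _ (by omega))

theorem ds_split {q : ℕ} (hq : 2 ≤ q) (m : ℕ) : ∀ t : ℕ,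
    ds q t = ds q (t / q ^ m) + ds q (t % q ^ m) := by
  induction m with
  | zero =>
    intro t
    rw [pow_zero, Nat.div_one, Nat.mod_one, ds_zero, add_zero]
  | succ m ih =>
    intro t
    rw [ds_step hq t, ih (t / q), pow_succ', ← Nat.div_div_eq_div_mul, Nat.mod_mul,
      show t % q + q * (t / q % q ^ m) = q * (t / q % q ^ m) + t % q by ring,
      ds_add hq (Nat.mod_lt _ (by omega))]
    ring

theorem ds_pos {q : ℕ} (hq : 2 ≤ q) (t : ℕ) : 1 ≤ t → 1 ≤ ds q t := by
  induction t using Nat.strong_induction_on with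
  | _ t ih =>
    intro ht
    rw [ds_step hq t]
    by_cases h : t % q = 0
    · have h1 : t / q < t := Nat.div_lt_self ht (by omega)
      have h2 : 1 ≤ t / q := by
        by_contra h3
        have h4 : t / q = 0 := Nat.lt_one_iff.1 (Nat.lt_of_not_le h3)
        have h5 := Nat.div_add_mod t q
        rw [h4, h] at h5
        omega
      have := ih _ h1 h2
      omega
    · omega

/-! ### counting -/

theorem lt_M {q c : ℕ} (hc : c < q) (X u : ℕ) : u < (X + (q - 1 - c)) / q ↔ q * u + c < X := by
  rw [← Nat.add_one_le_iff, Nat.le_div_iff_mul_le (by omega)]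
  have h : (u + 1) * q = q * u + q := by ring
  rw [h]
  omega

theorem count_split (p : ℕ → Prop) [DecidablePred p] {q : ℕ} (hq : 2 ≤ q) (X : ℕ) :
    ((range X).filter p).card =
      ∑ c ∈ range q, ((range ((X + (q - 1 - c)) / q)).filter (fun u => p (q * u + c))).card := by
  rw [Finset.card_eq_sum_card_fiberwise (f := fun k => k % q) (t := range q)]
  · refine Finset.sum_congr rfl fun c hc => ?_
    rw [mem_range] at hc
    symm
    apply Finset.card_bij (fun u _ => q * u + c)
    · intro u hu
      rw [mem_filter, mem_range] at hu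
      rw [mem_filter, mem_filter, mem_range]
      refine ⟨⟨(lt_M hc X u).1 hu.1, hu.2⟩, ?_⟩
      rw [Nat.mul_add_mod, Nat.mod_eq_of_lt hc]
    · intro u1 _ u2 _ h
      have h1 : q * u1 = q * u2 := by omega
      exact Nat.eq_of_mul_eq_mul_left (by omega) h1
    · intro k hk
      rw [mem_filter, mem_filter, mem_range] at hk
      obtain ⟨⟨h1, h2⟩, h3⟩ := hk
      have h4 := Nat.div_add_mod k q
      rw [h3] at h4
      refine ⟨k / q, ?_, h4⟩
      rw [mem_filter, mem_range]
      refine ⟨(lt_M hc X _).2 (by rw [h4]; exact h1), by rwa [h4]⟩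
  · intro k _
    simp only [coe_range, Set.mem_Iio]
    exact Nat.mod_lt _ (by omega)

theorem M_sum {q : ℕ} (hq : 2 ≤ q) (X : ℕ) : ∑ c ∈ range q, (X + (q - 1 - c)) / q = X := by
  have h := count_split (fun _ => True) hq X
  simp only [filter_true, card_range] at h
  exact h.symm

theorem al_split {q : ℕ} (hq : 2 ≤ q) (i e X : ℕ) :
    al q i e X = ∑ c ∈ range q, al q (i + c) e ((X + (q - 1 - c)) / q) := by
  unfold al
  rw [count_split _ hq X]
  refine Finset.sum_congr rfl fun c hc => ?_
  rw [mem_range] at hc
  congr 1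
  apply Finset.filter_congr
  intro u _
  rw [ds_add hq hc]
  constructor <;> intro h <;> omega

theorem al_zero (q a e X : ℕ) (h : e < a) : al q a e X = 0 := by
  unfold al
  rw [card_eq_zero, filter_eq_empty_iff]
  intro k _ hk
  omega

theorem al_nil (q a e : ℕ) : al q a e 0 = 0 := by
  unfold al
  simp

theorem al_off (q i e c X : ℕ) (h : c ≤ e) : al q i (e - c) X = al q (i + c) e X := by
  unfold al
  congr 1
  apply Finset.filter_congr
  intro u _
  constructor <;> intro h <;> omega

theorem count_add (p : ℕ → Prop) [DecidablePred p] (X m : ℕ) :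
    ((range (X + m)).filter p).card =
      ((range X).filter p).card + ((range m).filter (fun s => p (X + s))).card := by
  induction m with
  | zero => simp
  | succ m ih =>
    rw [← add_assoc]
    have h1 : ∀ Y (r : ℕ → Prop) [DecidablePred r], ((range (Y + 1)).filter r).card =
        ((range Y).filter r).card + if r Y then 1 else 0 := by
      intro Y r _
      rw [range_add_one, filter_insert]
      split_ifs with h
      · rw [card_insert_of_notMem (by simp)]
      · rfl
    rw [h1, ih, h1]
    ring

theorem al_add (q a e X m : ℕ) : al q a e (X + m) =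
    al q a e X + ((range m).filter (fun s => a + ds q (X + s) ≤ e)).card := by
  unfold al
  exact count_add _ X m

/-- the count for an initial segment of the box -/
theorem init_count (q K e : ℕ) (hK : 0 < K) (k1 : ℕ) : ∀ S, S ≤ k1 * K →
    ((range S).filter (fun t => t / K + ds q (t % K) ≤ e)).card =
      ∑ i ∈ range k1, al q i e (min K (S - i * K)) := by
  induction k1 with
  | zero =>
    intro S hS
    rw [zero_mul, Nat.le_zero] at hS
    subst hS
    simp
  | succ k1 ih =>
    intro S hS
    rw [sum_range_succ]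
    by_cases h : S ≤ k1 * K
    · rw [ih S h, Nat.sub_eq_zero_of_le h, Nat.min_zero, al_nil, add_zero]
    · push Not at h
      obtain ⟨m, rfl⟩ : ∃ m, S = k1 * K + m := ⟨S - k1 * K, by omega⟩
      have hm : m ≤ K := by
        rw [add_mul, one_mul] at hS
        omega
      have h1 : ((range m).filter (fun s => (k1 * K + s) / K + ds q ((k1 * K + s) % K) ≤ e)) =
          (range m).filter (fun s => k1 + ds q s ≤ e) := by
        apply Finset.filter_congr
        intro s hs
        rw [mem_range] at hs
        have hsK : s < K := by omega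
        have e1 : (k1 * K + s) / K = k1 := by
          rw [mul_comm, Nat.mul_add_div hK, Nat.div_eq_of_lt hsK, add_zero]
        have e2 : (k1 * K + s) % K = s := by
          rw [mul_comm, Nat.mul_add_mod, Nat.mod_eq_of_lt hsK]
        rw [e1, e2]
      rw [count_add, h1, ih _ le_rfl]
      congr 1
      · refine Finset.sum_congr rfl fun i hi => ?_
        rw [mem_range] at hi
        have h2 : K ≤ k1 * K - i * K := by
          rw [← Nat.sub_mul]
          exact Nat.le_mul_of_pos_left K (by omega)
        rw [min_eq_left h2, min_eq_left (by omega)]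
      · rw [Nat.add_sub_cancel_left, min_eq_right hm]
        rfl

/-! ### initial distributions -/

/-- the distribution of an initial segment over rows of length `K` -/
def ini (K S i : ℕ) : ℕ := min K (S - i * K)

theorem ini_sum (K S j : ℕ) : ∑ i ∈ range j, ini K S i = min (j * K) S := by
  induction j with
  | zero => simp
  | succ j ih =>
    rw [sum_range_succ, ih, add_mul, one_mul]
    unfold ini
    omega

theorem ini_anti (K S : ℕ) : Antitone (ini K S) := by
  intro i j h
  unfold ini
  have h1 : i * K ≤ j * K := Nat.mul_le_mul_right K h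
  omega

theorem ini_mono (K i : ℕ) {S S' : ℕ} (h : S ≤ S') : ini K S i ≤ ini K S' i := by
  unfold ini
  omega

/-- characterization of the initial distribution -/
theorem ini_char (K k1 : ℕ) (hK : 0 < K) (y : ℕ → ℕ) (hy : ∀ j, j < k1 → y j ≤ K)
    (h : ∀ j, j + 1 < k1 → y j = K ∨ y (j + 1) = 0) (i : ℕ) (hi : i < k1) :
    y i = ini K (∑ j ∈ range k1, y j) i := by
  have hz : ∀ j, j < k1 → y j < K → ∀ r, j + (r + 1) < k1 → y (j + (r + 1)) = 0 := by
    intro j _ hjK r
    induction r with
    | zero =>
      intro hr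
      rcases h j (by omega) with h1 | h1
      · omega
      · exact h1
    | succ r ih =>
      intro hr
      have h1 := ih (by omega)
      rcases h (j + (r + 1)) (by omega) with h2 | h2
      · omega
      · exact h2
  have hT : ∀ j, j ≤ k1 → ∑ i ∈ range j, y i = min (j * K) (∑ j ∈ range k1, y j) := by
    intro j hj
    have h1 : ∑ i ∈ range j, y i ≤ ∑ i ∈ range k1, y i :=
      sum_le_sum_of_subset (range_subset_range.2 hj)
    have h2 : ∑ i ∈ range j, y i ≤ j * K := by
      calc ∑ i ∈ range j, y i ≤ ∑ i ∈ range j, K :=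
            sum_le_sum fun i hi => hy i (by rw [mem_range] at hi; omega)
        _ = j * K := by rw [sum_const, card_range, smul_eq_mul]
    by_cases h3 : ∃ i, i < j ∧ y i < K
    · obtain ⟨i, hij, hiK⟩ := h3
      have h4 : ∑ i ∈ range k1, y i = ∑ i ∈ range j, y i := by
        symm
        apply sum_subset (range_subset_range.2 hj)
        intro l hl hl'
        rw [mem_range] at hl hl'
        have h5 := hz i (by omega) hiK (l - i - 1) (by omega)
        rwa [show i + (l - i - 1 + 1) = l by omega] at h5
      omega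
    · push Not at h3
      have h4 : ∑ i ∈ range j, y i = j * K := by
        apply le_antisymm h2
        calc j * K = ∑ i ∈ range j, K := by rw [sum_const, card_range, smul_eq_mul]
          _ ≤ ∑ i ∈ range j, y i := sum_le_sum fun i hi => h3 i (by rwa [mem_range] at hi)
      omega
  have h1 := hT i (by omega)
  have h2 := hT (i + 1) (by omega)
  rw [sum_range_succ, h1, add_mul, one_mul] at h2
  unfold ini
  omega

/-- changing two neighbouring terms of a sum -/
theorem sum_two (f g : ℕ → ℕ) (i k1 : ℕ) (hi : i + 1 < k1)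
    (h : ∀ j, j ≠ i → j ≠ i + 1 → f j = g j) (h2 : f i + f (i + 1) ≤ g i + g (i + 1)) :
    ∑ j ∈ range k1, f j ≤ ∑ j ∈ range k1, g j := by
  obtain ⟨r, rfl⟩ : ∃ r, k1 = i + 2 + r := ⟨k1 - (i + 2), by omega⟩
  rw [sum_range_add, sum_range_add, sum_range_add, sum_range_add]
  have e1 : ∑ j ∈ range i, f j = ∑ j ∈ range i, g j :=
    sum_congr rfl fun j hj => by
      rw [mem_range] at hj
      exact h j (by omega) (by omega)
  have e2 : ∑ j ∈ range r, f (i + 2 + j) = ∑ j ∈ range r, g (i + 2 + j) :=
    sum_congr rfl fun j _ => h _ (by omega) (by omega)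
  rw [e1, e2]
  simp only [sum_range_succ, range_zero, sum_empty, zero_add, add_zero]
  omega

/-! ### the induction -/

/-- the inequality with `n` factors `q` -/
def PP (q n : ℕ) : Prop := ∀ (k1 k2 e : ℕ) (x : ℕ → ℕ), k1 ≤ k2 → k2 ≤ q → Antitone x →
  x 0 ≤ k2 * q ^ n →
  ∑ i ∈ range k1, al q i e (ini (k2 * q ^ n) (∑ i ∈ range k1, x i) i) ≤
    ∑ i ∈ range k1, al q i e (x i)

theorem sum_le_box {k1 K : ℕ} {x : ℕ → ℕ} (hx : Antitone x) (h0 : x 0 ≤ K) :
    ∑ i ∈ range k1, x i ≤ k1 * K := by
  calc ∑ i ∈ range k1, x i ≤ ∑ i ∈ range k1, K :=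
        sum_le_sum fun i _ => (hx (Nat.zero_le i)).trans h0
    _ = k1 * K := by rw [sum_const, card_range, smul_eq_mul]

theorem PP_zero (h0 : CL0) {q : ℕ} (hq : 2 ≤ q) : PP q 0 := by
  intro k1 k2 e x hk1 hk2 hx hx0
  rw [pow_zero, mul_one] at hx0 ⊢
  by_cases hz : k2 = 0
  · have : k1 = 0 := by omega
    subst this
    simp
  · have hpos : 0 < k2 := Nat.pos_of_ne_zero hz
    have h1 := h0 k1 k2 e x hk1 hx hx0
    have h2 := init_count q k2 e hpos k1 (∑ i ∈ range k1, x i) (sum_le_box hx hx0)
    have h3 : ((range (∑ i ∈ range k1, x i)).filter (fun t => t / k2 + ds q (t % k2) ≤ e)) =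
        (range (∑ i ∈ range k1, x i)).filter (fun t => t / k2 + t % k2 ≤ e) := by
      apply filter_congr
      intro t _
      rw [ds_small hq ((Nat.mod_lt t hpos).trans_le hk2)]
    have h4 : ∑ i ∈ range k1, al q i e (x i) =
        ∑ i ∈ range k1, ((range (x i)).filter (fun t => i + t ≤ e)).card := by
      refine sum_congr rfl fun i _ => ?_
      unfold al
      congr 1
      apply filter_congr
      intro t ht
      rw [mem_range] at ht
      rw [ds_small hq (by have := hx (Nat.zero_le i); omega)]
    rw [h4]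
    unfold ini
    rw [← h2, h3]
    exact h1

/-- columns -/
theorem col_ineq {q n : ℕ} (ih : PP q n) (k1 k2 e c : ℕ) (M : ℕ → ℕ) (hk1 : k1 ≤ k2)
    (hk2 : k2 ≤ q) (hM : Antitone M) (hM0 : M 0 ≤ k2 * q ^ n) :
    ∑ i ∈ range k1, al q (i + c) e (ini (k2 * q ^ n) (∑ i ∈ range k1, M i) i) ≤
      ∑ i ∈ range k1, al q (i + c) e (M i) := by
  by_cases hc : c ≤ e
  · have h := ih k1 k2 (e - c) M hk1 hk2 hM hM0
    simp only [al_off _ _ _ _ _ hc] at h
    exact h
  · apply le_of_eq
    refine sum_congr rfl fun i _ => ?_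
    rw [al_zero _ _ _ _ (by omega), al_zero _ _ _ _ (by omega)]

/-- rows -/
theorem row_ineq {q n : ℕ} (hq : 2 ≤ q) (ih : PP q n) (i e : ℕ) (z : ℕ → ℕ) (hz : Antitone z)
    (hz0 : z 0 ≤ q * q ^ n) :
    al q i e (∑ c ∈ range q, z c) ≤ ∑ c ∈ range q, al q (i + c) e (z c) := by
  by_cases hi : i ≤ e
  · have h := ih q q (e - i) z le_rfl le_rfl hz hz0
    have hpos : 0 < q * q ^ n := by positivity
    have hS := sum_le_box (k1 := q) hz hz0
    have h2 := init_count q (q * q ^ n) (e - i) hpos q (∑ i ∈ range q, z i) hS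
    have h3 : ((range (∑ i ∈ range q, z i)).filter
        (fun t => t / (q * q ^ n) + ds q (t % (q * q ^ n)) ≤ e - i)) =
        (range (∑ i ∈ range q, z i)).filter (fun t => i + ds q t ≤ e) := by
      apply filter_congr
      intro t ht
      rw [mem_range] at ht
      have h4 := ds_split hq (n + 1) t
      have h5 : t / q ^ (n + 1) < q := by
        rw [Nat.div_lt_iff_lt_mul (by positivity), pow_succ']
        omega
      rw [ds_small hq h5, pow_succ'] at h4
      omega
    have h6 : al q i e (∑ c ∈ range q, z c) =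
        ∑ j ∈ range q, al q j (e - i) (ini (q * q ^ n) (∑ i ∈ range q, z i) j) := by
      unfold ini
      rw [← h2, h3]
      rfl
    rw [h6]
    refine h.trans (le_of_eq (sum_congr rfl fun j _ => ?_))
    rw [al_off _ _ _ _ _ hi, add_comm]
  · rw [al_zero _ _ _ _ (by omega)]
    exact Nat.zero_le _

/-- moving some last elements of a row to the end of the previous row -/
theorem move_ineq {q Q i e X Y m : ℕ} (hq : 2 ≤ q) (hQ : 2 ≤ Q) (hX : X + m ≤ q * Q)
    (hY : Y < q) (hmY : m ≤ Y) (hXY : q * Q + Y ≤ X + q) :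
    al q i e (X + m) + al q (i + 1) e (Y - m) ≤ al q i e X + al q (i + 1) e Y := by
  have h1 := al_add q i e X m
  have h2 := al_add q (i + 1) e (Y - m) m
  rw [Nat.sub_add_cancel hmY] at h2
  rw [h1, h2]
  have h3 : ((range m).filter (fun s => i + ds q (X + s) ≤ e)).card ≤
      ((range m).filter (fun s => i + 1 + ds q (Y - m + s) ≤ e)).card := by
    apply card_le_card
    intro s hs
    rw [mem_filter, mem_range] at hs ⊢
    obtain ⟨hs1, hs2⟩ := hs
    refine ⟨hs1, ?_⟩
    have e1 : ds q (Y - m + s) = Y - m + s := ds_small hq (by omega)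
    obtain ⟨Q', rfl⟩ : ∃ Q', Q = Q' + 1 := ⟨Q - 1, by omega⟩
    have e0 : q * (Q' + 1) = q * Q' + q := by ring
    rw [e0] at hX hXY
    have e2 : ds q (X + s) = ds q Q' + (X + s - q * Q') := by
      conv_lhs => rw [show X + s = q * Q' + (X + s - q * Q') by omega]
      exact ds_add hq (by omega)
    have e3 := ds_pos hq Q' (by omega)
    rw [e2] at hs2
    rw [e1]
    omega
  omega

/-- the last step: all columns are initial segments -/
theorem last_step {q Q k1 k2 e : ℕ} (hq : 2 ≤ q) (hk : k1 ≤ k2) (hQk : k2 ≤ Q) (x : ℕ → ℕ)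
    (hx : Antitone x) (hx0 : x 0 ≤ q * Q)
    (h : ∀ i, i + 1 < k1 → ∀ c, c < q → q * Q + c < x i + q ∨ x (i + 1) ≤ c) :
    ∑ i ∈ range k1, al q i e (ini (q * Q) (∑ i ∈ range k1, x i) i) ≤
      ∑ i ∈ range k1, al q i e (x i) := by
  by_cases hini : ∀ j, j + 1 < k1 → x j = q * Q ∨ x (j + 1) = 0
  · by_cases hQ : 0 < q * Q
    · apply le_of_eq
      refine sum_congr rfl fun i hi => ?_
      rw [mem_range] at hi
      rw [← ini_char (q * Q) k1 hQ x (fun j _ => (hx (Nat.zero_le j)).trans hx0) hini i hi]
    · have h1 : ∀ i, x i = 0 := by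
        intro i
        have := hx (Nat.zero_le i)
        omega
      apply le_of_eq
      refine sum_congr rfl fun i _ => ?_
      have h2 : ini (q * Q) (∑ i ∈ range k1, x i) i = 0 := by
        unfold ini
        omega
      rw [h1, h2]
  · push Not at hini
    obtain ⟨i, hi, hiK, hi1⟩ := hini
    have hQ2 : 2 ≤ Q := by omega
    have hqQ : 2 * q ≤ q * Q := by
      rw [mul_comm 2 q]
      exact Nat.mul_le_mul_left q hQ2
    have hxK : ∀ j, x j ≤ q * Q := fun j => (hx (Nat.zero_le j)).trans hx0
    have a1 : x i < q * Q := lt_of_le_of_ne (hxK i) hiK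
    have a2 : x (i + 1) < q := by
      rcases h i hi (q - 1) (by omega) with h1 | h1 <;> omega
    have a3 : q * Q + x (i + 1) ≤ x i + q := by
      rcases h i hi (x (i + 1) - 1) (by omega) with h1 | h1 <;> omega
    have a4 : ∀ j, i + 2 ≤ j → j < k1 → x j = 0 := by
      intro j hj hjk
      have h2 := hx hj
      rcases h (i + 1) (by omega) 0 (by omega) with h1 | h1
      · omega
      · have h3 : x (i + 2) ≤ 0 := h1
        omega
    have a5 : ∀ j, j < i → x j = q * Q := by
      intro j hj
      have h2 : x (i - 1) ≤ x j := hx (by omega)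
      have h3 := hxK j
      have h4 := h (i - 1) (by omega) (q - 1) (by omega)
      rw [show i - 1 + 1 = i by omega] at h4
      rcases h4 with h1 | h1 <;> omega
    set m := min (q * Q - x i) (x (i + 1)) with hm
    set y : ℕ → ℕ := fun j => if j = i then x i + m else if j = i + 1 then x (i + 1) - m else x j
      with hy
    have y1 : y i = x i + m := by simp [hy]
    have y2 : y (i + 1) = x (i + 1) - m := by simp [hy]
    have y3 : ∀ j, j ≠ i → j ≠ i + 1 → y j = x j := by
      intro j h1 h2
      simp [hy, h1, h2]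
    have hsum : ∑ j ∈ range k1, y j = ∑ j ∈ range k1, x j := by
      apply le_antisymm
      · exact sum_two y x i k1 hi y3 (by rw [y1, y2]; omega)
      · exact sum_two x y i k1 hi (fun j h1 h2 => (y3 j h1 h2).symm) (by rw [y1, y2]; omega)
    have hyK : ∀ j, j < k1 → y j ≤ q * Q := by
      intro j _
      by_cases h1 : j = i
      · subst h1
        rw [y1]
        omega
      · by_cases h2 : j = i + 1
        · subst h2
          rw [y2]
          have := hxK (i + 1)
          omega
        · rw [y3 j h1 h2]
          exact hxK j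
    have hyi : ∀ j, j + 1 < k1 → y j = q * Q ∨ y (j + 1) = 0 := by
      intro j hj
      rcases lt_trichotomy j i with h1 | h1 | h1
      · left
        rw [y3 j (by omega) (by omega)]
        exact a5 j h1
      · subst h1
        rw [y1, y2]
        omega
      · right
        rw [y3 (j + 1) (by omega) (by omega)]
        exact a4 (j + 1) (by omega) hj
    have hfin : ∑ j ∈ range k1, al q j e (y j) ≤ ∑ j ∈ range k1, al q j e (x j) := by
      apply sum_two _ _ i k1 hi
      · intro j h1 h2
        rw [y3 j h1 h2]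
      · rw [y1, y2]
        exact move_ineq hq hQ2 (by omega) a2 (by omega) a3
    refine le_trans (le_of_eq ?_) hfin
    refine sum_congr rfl fun j hj => ?_
    rw [mem_range] at hj
    rw [← hsum, ← ini_char (q * Q) k1 (by omega) y hyK hyi j hj]

/-- the induction step -/
theorem PP_succ {q n : ℕ} (hq : 2 ≤ q) (ih : PP q n) : PP q (n + 1) := by
  intro k1 k2 e x hk1 hk2 hx hx0
  have hK : k2 * q ^ (n + 1) = q * (k2 * q ^ n) := by rw [pow_succ]; ring
  rw [hK] at hx0 ⊢
  set Q := k2 * q ^ n with hQ
  have hQk : k2 ≤ Q := Nat.le_mul_of_pos_right k2 (by positivity)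
  have hQq : Q ≤ q * q ^ n := Nat.mul_le_mul_right _ hk2
  -- the potential
  set μ : (ℕ → ℕ) → ℕ := fun x => ∑ j ∈ range k1, (∑ i ∈ range k1, x i - ∑ i ∈ range j, x i)
    with hμ
  suffices H : ∀ N (x : ℕ → ℕ), Antitone x → x 0 ≤ q * Q → μ x = N →
      ∑ i ∈ range k1, al q i e (ini (q * Q) (∑ i ∈ range k1, x i) i) ≤
        ∑ i ∈ range k1, al q i e (x i) from H _ x hx hx0 rfl
  clear hx0 hx x
  intro N
  induction N using Nat.strong_induction_on with
  | _ N IH =>
    intro x hx hx0 hN
    set M : ℕ → ℕ → ℕ := fun c i => (x i + (q - 1 - c)) / q with hM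
    set S : ℕ → ℕ := fun c => ∑ i ∈ range k1, M c i with hS
    set z : ℕ → ℕ → ℕ := fun c i => ini Q (S c) i with hz
    set x' : ℕ → ℕ := fun i => ∑ c ∈ range q, z c i with hx'
    have hMa : ∀ c, Antitone (M c) := by
      intro c i j hij
      exact Nat.div_le_div_right (Nat.add_le_add_right (hx hij) _)
    have hMc : ∀ i, Antitone (fun c => M c i) := by
      intro i c c' hcc
      exact Nat.div_le_div_right (by omega)
    have hM0 : ∀ c, c < q → M c 0 ≤ Q := by
      intro c hc
      by_contra h1
      push Not at h1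
      have h2 := (lt_M hc (x 0) Q).1 h1
      omega
    have hxs : ∀ j, ∑ c ∈ range q, ∑ i ∈ range j, M c i = ∑ i ∈ range j, x i := by
      intro j
      rw [sum_comm]
      exact sum_congr rfl fun i _ => M_sum hq (x i)
    have hzs : ∀ c j, ∑ i ∈ range j, z c i = min (j * Q) (S c) := fun c j => ini_sum Q (S c) j
    have hx's : ∀ j, ∑ i ∈ range j, x' i = ∑ c ∈ range q, min (j * Q) (S c) := by
      intro j
      rw [sum_comm]
      exact sum_congr rfl fun c _ => hzs c j
    have hSb : ∀ c, c < q → S c ≤ k1 * Q := fun c hc => sum_le_box (hMa c) (hM0 c hc)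
    have hMmin : ∀ c, c < q → ∀ j, j ≤ k1 → ∑ i ∈ range j, M c i ≤ min (j * Q) (S c) := by
      intro c hc j hj
      apply le_min
      · exact sum_le_box (hMa c) (hM0 c hc)
      · exact sum_le_sum_of_subset (range_subset_range.2 hj)
    have htot : ∑ i ∈ range k1, x' i = ∑ i ∈ range k1, x i := by
      rw [hx's, ← hxs]
      refine sum_congr rfl fun c hc => ?_
      rw [mem_range] at hc
      exact min_eq_right (hSb c hc)
    have hxa' : Antitone x' := by
      intro i j hij
      exact sum_le_sum fun c _ => ini_anti Q (S c) hij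
    have hx0' : x' 0 ≤ q * Q := by
      calc x' 0 ≤ ∑ c ∈ range q, Q := sum_le_sum fun c _ => min_le_left _ _
        _ = q * Q := by rw [sum_const, card_range, smul_eq_mul]
    have hF : ∑ i ∈ range k1, al q i e (x' i) ≤ ∑ i ∈ range k1, al q i e (x i) := by
      calc ∑ i ∈ range k1, al q i e (x' i)
          ≤ ∑ i ∈ range k1, ∑ c ∈ range q, al q (i + c) e (z c i) := by
            refine sum_le_sum fun i _ => ?_
            apply row_ineq hq ih i e (fun c => z c i)
            · intro c c' hcc
              apply ini_mono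
              exact sum_le_sum fun i _ => hMc i hcc
            · exact (min_le_left _ _).trans hQq
        _ = ∑ c ∈ range q, ∑ i ∈ range k1, al q (i + c) e (z c i) := sum_comm
        _ ≤ ∑ c ∈ range q, ∑ i ∈ range k1, al q (i + c) e (M c i) := by
            refine sum_le_sum fun c hc => ?_
            rw [mem_range] at hc
            exact col_ineq ih k1 k2 e c (M c) hk1 hk2 (hMa c) (hM0 c hc)
        _ = ∑ i ∈ range k1, ∑ c ∈ range q, al q (i + c) e (M c i) := sum_comm
        _ = ∑ i ∈ range k1, al q i e (x i) :=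
            sum_congr rfl fun i _ => (al_split hq i e (x i)).symm
    have hle : ∀ j, j ≤ k1 → ∑ i ∈ range j, x i ≤ ∑ i ∈ range j, x' i := by
      intro j hj
      rw [hx's, ← hxs]
      refine sum_le_sum fun c hc => ?_
      rw [mem_range] at hc
      exact hMmin c hc j hj
    by_cases hlt : ∃ j, j < k1 ∧ ∑ i ∈ range j, x i < ∑ i ∈ range j, x' i
    · obtain ⟨j, hj, hjlt⟩ := hlt
      have hμlt : μ x' < μ x := by
        apply sum_lt_sum
        · intro i hi
          rw [mem_range] at hi
          have := hle i hi.le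
          rw [htot]
          omega
        · refine ⟨j, mem_range.2 hj, ?_⟩
          rw [htot]
          have h1 : ∑ i ∈ range j, x' i ≤ ∑ i ∈ range k1, x' i :=
            sum_le_sum_of_subset (range_subset_range.2 hj.le)
          rw [htot] at h1
          omega
      have h2 := IH (μ x') (by omega) x' hxa' hx0' rfl
      rw [htot] at h2
      exact h2.trans hF
    · push Not at hlt
      have heq : ∀ j, j ≤ k1 → ∀ c, c < q → ∑ i ∈ range j, M c i = min (j * Q) (S c) := by
        intro j hj c hc
        have h1 : ∑ i ∈ range j, x i = ∑ i ∈ range j, x' i := by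
          rcases Nat.lt_or_ge j k1 with h2 | h2
          · exact le_antisymm (hle j hj) (hlt j h2)
          · have : j = k1 := by omega
            subst this
            exact htot.symm
        rw [hx's, ← hxs] at h1
        exact (sum_eq_sum_iff_of_le fun c hc => hMmin c (mem_range.1 hc) j hj).1 h1 c
          (mem_range.2 hc)
      apply last_step hq hk1 hQk x hx hx0
      intro i hi c hc
      by_contra hcon
      push Not at hcon
      obtain ⟨h1, h2⟩ := hcon
      have h3 := heq i (by omega) c hc
      have h4 := heq (i + 1) (by omega) c hc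
      have h5 := heq (i + 2) (by omega) c hc
      rw [sum_range_succ] at h4
      rw [show i + 2 = i + 1 + 1 from rfl, sum_range_succ, sum_range_succ] at h5
      have h6 : 0 < M c (i + 1) := (lt_M hc (x (i + 1)) 0).2 (by omega)
      have h7 : M c i < Q := by
        by_contra h8
        push Not at h8
        have hQ0 : 0 < Q := by omega
        obtain ⟨Q', hQ'⟩ : ∃ Q', Q = Q' + 1 := ⟨Q - 1, by omega⟩
        have h9 : Q' < M c i := by omega
        have h10 := (lt_M hc (x i) Q').1 h9
        rw [hQ'] at h1
        have h11 : q * (Q' + 1) = q * Q' + q := by ring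
        omega
      have e1 : (i + 1) * Q = i * Q + Q := by ring
      have e2 : (i + 1 + 1) * Q = i * Q + Q + Q := by ring
      rw [e1] at h4
      rw [e2] at h5
      omega

theorem PP_all (h0 : CL0) {q : ℕ} (hq : 2 ≤ q) (n : ℕ) : PP q n := by
  induction n with
  | zero => exact PP_zero h0 hq
  | succ n ih => exact PP_succ hq ih

/-- the Clements-Lindstroem inequality -/
theorem cl_of (h0 : CL0) : CL := by
  intro q n k1 k2 e x hq hk1 hk2 hx hx0
  by_cases hz : k2 = 0
  · have : k1 = 0 := by omega
    subst this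
    simp
  · have hpos : 0 < k2 * q ^ n := Nat.mul_pos (Nat.pos_of_ne_zero hz) (by positivity)
    rw [init_count q (k2 * q ^ n) e hpos k1 _ (sum_le_box hx hx0)]
    exact PP_all h0 hq n k1 k2 e x hk1 hk2 hx hx0

end Pool.Agent.W646.ER
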