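import Pool.Agent.W477.ER.Stm

/-!
# The lemmas V1, V2, V3 of the project ER
-/

set_option autoImplicit false

namespace Pool.Agent.W646.ER

open Finset Pool.Agent.W477.ER

namespace V

theorem split1 {q : ℕ} (hq : 2 ≤ q) (f : ℕ → ℕ) :
    ∑ i ∈ range q, f i = f 0 + ∑ i ∈ Ico 1 q, f i := by
  rw [range_eq_Ico, sum_eq_sum_Ico_succ_bot (by omega : 0 < q)]

theorem split2 {q : ℕ} (hq : 2 ≤ q) (f : ℕ → ℕ) :
    ∑ i ∈ Ico 1 q, f i = f 1 + ∑ i ∈ Ico 2 q, f i := by
  rw [sum_eq_sum_Ico_succ_bot (by omega : 1 < q)]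

/-- the key inequality for bad rows -/
theorem key {q d l r N w : ℕ} {n : ℕ → ℕ} (htg : TotGe) (hbc : BeCan) (hpar : Par q d l 1 r N)
    (hrows : Rows q N w n) (hbad : tot q d w n < be q 0 d N)
    (A : ℕ) (hA : al q 0 d (q ^ (l + 1)) + A ≤ be q 0 d (n 0)) :
    A + ∑ i ∈ Ico 1 q, be q i d (n i) < al q 1 d r := by
  obtain ⟨hq, hdq, -, hd1, hr1, hrd, hN⟩ := hpar
  have h1 := htg q d w n hq hdq hrows.2.1
  have h3 := (hbc q d l 1 r hq hdq le_rfl hd1 hrd).1
  rw [Nat.sub_self, zero_mul, zero_add, ← hN] at h3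
  rw [split1 hq] at h1
  omega

/-- the size of the rows -/
theorem Neq {q d l r N : ℕ} (hpp : PpBasic) (hpar : Par q d l 1 r N) :
    N = pp q (l + 2) + r := by
  rw [hpar.2.2.2.2.2.2, hpp.2.2.1 q (l + 1)]
  ring

/-- layers for all rows but the first one -/
theorem lay1 (hlay : LAY) (hbx : BeX1) (hxx : XxBasic) {q d : ℕ} (hq : 2 ≤ q) (hd : d < q)
    (n : ℕ → ℕ) (hn : Antitone n) :
    al q 1 d (∑ i ∈ Ico 1 q, xx q (n i)) ≤ ∑ i ∈ Ico 1 q, be q i d (n i) := by
  have h := hlay q (q - 1) 1 d (fun j => xx q (n (1 + j))) hq (by omega)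
    (fun i j hij => hxx.1 _ _ _ hq (hn (by omega)))
  rw [sum_Ico_eq_sum_range, sum_Ico_eq_sum_range]
  refine h.trans (sum_le_sum fun k _ => ?_)
  exact hbx q (1 + k) d (n (1 + k)) hq (by omega)

/-- layers for all rows but the first two ones -/
theorem lay3 (hlay : LAY) (hbs : BeShift) {q d : ℕ} (hq : 2 ≤ q) (hd : d < q)
    (n : ℕ → ℕ) (hn : Antitone n) :
    al q 3 d (∑ i ∈ Ico 2 q, n i) ≤ ∑ i ∈ Ico 2 q, be q i d (n i) := by
  have h := hlay q (q - 2) 3 d (fun j => n (2 + j)) hq (by omega)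
    (fun i j hij => hn (by omega))
  rw [sum_Ico_eq_sum_range, sum_Ico_eq_sum_range]
  refine h.trans (sum_le_sum fun k _ => ?_)
  have h2 := hbs q (2 + k) d (n (2 + k)) hq (by omega)
  rw [show 3 + k = 2 + k + 1 by ring]
  exact h2

/-- the first row beyond the full space -/
theorem first_row (hbb : BeBlock) (hbp : BePP) {q d l y : ℕ} (hq : 2 ≤ q) (hd : d < q)
    (hy : y ≤ q ^ (l + 2)) :
    be q 0 d (pp q (l + 2) + y) = al q 0 d (q ^ (l + 1)) + al q 1 d y := by
  have h1 : be q 0 d (pp q (l + 2) + y) = be q 0 d (pp q (l + 2)) + al q 1 d y :=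
    hbb q 0 d (l + 1) y hq hy
  have h2 : be q 0 d (pp q (l + 2)) = al q 0 d (q ^ (l + 1)) := hbp q 0 d (l + 1) hq (by omega)
  rw [h1, h2]

end V

theorem v1_of (hlay : LAY) (halb : AlBasic) (hpp : PpBasic) (hbs : BeSat) (hbx : BeX1)
    (hxx : XxBasic) (hbc : BeCan) (htg : TotGe) (hu : U) (hc1 : C1) : V1 := by
  intro q d l r N w n hpar hrows hbad
  obtain ⟨hq, hdq, -, hd1, hr1, hrd, hN⟩ := id hpar
  obtain ⟨hanti, hw, hsum⟩ := id hrows
  have hn0 : d * q ^ l + pp q l < n 0 := by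
    by_contra h
    push Not at h
    have h1 := hu q d l 1 r N w n hpar hrows (Or.inl rfl) ⟨0, by omega, by
      rw [Nat.sub_zero]; exact h⟩
    have h2 := htg q d w n hq hdq hw
    omega
  have hb0 : al q 0 d (q ^ (l + 1)) ≤ be q 0 d (n 0) := by
    apply hbs q 0 d l (n 0) hq (by omega) (by omega)
    rw [Nat.sub_zero]
    omega
  have hkey := V.key htg hbc hpar hrows hbad 0 (by omega)
  have hlay1 := V.lay1 hlay hbx hxx hq hdq n hanti
  have hX : ∑ i ∈ Ico 1 q, xx q (n i) + 1 ≤ r := by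
    by_contra h
    push Not at h
    have h1 := halb.1 q 1 d r (∑ i ∈ Ico 1 q, xx q (n i)) (by omega)
    omega
  have hcX : (q - 1) * cc q n ≤ q * ∑ i ∈ Ico 1 q, xx q (n i) := by
    unfold cc
    rw [mul_sum, mul_sum]
    exact sum_le_sum fun i _ => hxx.2.2.2.2.1 q (n i) hq
  refine ⟨hX, ?_, ?_, hn0⟩
  · refine hcX.trans (Nat.mul_le_mul_left q (by omega))
  · have h1 := hc1 q d l 1 r N w n hpar hrows
    have h2 : n 0 < pp q (l + 2) + n 1 := by
      by_contra h
      push Not at h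
      exact absurd (h1 h) (by omega)
    have h3 := V.Neq hpp hpar
    rw [V.split1 hq] at hsum
    unfold cc
    omega

theorem v2_of (hlay : LAY) (halb : AlBasic) (halp : AlPow) (halsat : AlSat) (hals : AlShift)
    (halsub : AlSub) (hpp : PpBasic) (hbb : BeBlock) (hbp : BePP) (hbs : BeShift) (hbc : BeCan)
    (htg : TotGe) (hv1 : V1) : V2 := by
  intro q d l r N n hq3 hpar hrows hbad
  obtain ⟨hq, hdq, -, hd1, hr1, hrd, hN⟩ := id hpar
  obtain ⟨hanti, -, hsum⟩ := id hrows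
  obtain ⟨p0, p1, p3, p4, p5, p6⟩ := id hpp
  obtain ⟨hX, hcr, hrn, -⟩ := hv1 q d l r N 0 n hpar hrows hbad
  have hNe := V.Neq hpp hpar
  have hmain : r < cc q n + q ^ l := by
    by_contra hcon
    push Not at hcon
    set E1 := ∑ i ∈ Ico 2 q, n i with hE1
    have hcc : cc q n = n 1 + E1 := V.split2 hq n
    rw [V.split1 hq] at hsum
    have hcc' : cc q n = ∑ i ∈ Ico 1 q, n i := rfl
    rw [← hcc'] at hsum
    obtain ⟨y, hy⟩ : ∃ y, r = y + cc q n := ⟨r - cc q n, by omega⟩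
    have hn0 : n 0 = pp q (l + 2) + y := by omega
    have hyn1 : y < n 1 := by omega
    have hyl : q ^ l ≤ y := by omega
    have hpos : 0 < q ^ l := by positivity
    have hd2 : (d - 1) * q ^ l + q ^ l ≤ q ^ (l + 1) := by
      calc (d - 1) * q ^ l + q ^ l = (d - 1 + 1) * q ^ l := by ring
        _ ≤ q * q ^ l := Nat.mul_le_mul_right _ (by omega)
        _ = q ^ (l + 1) := by rw [pow_succ']
    have hpow : q ^ (l + 1) ≤ q ^ (l + 2) := Nat.pow_le_pow_right (by omega) (by omega)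
    have hb0 := V.first_row hbb hbp (l := l) (y := y) hq hdq (by omega)
    have hkey := V.key htg hbc hpar hrows hbad (al q 1 d y) (by rw [hn0, hb0])
    rw [V.split2 hq] at hkey
    have hlay3 := V.lay3 hlay hbs hq hdq n hanti
    rw [← hE1] at hlay3
    have hqm : (q - 1) * q ^ l + q ^ l = q ^ (l + 1) := by
      calc (q - 1) * q ^ l + q ^ l = (q - 1 + 1) * q ^ l := by ring
        _ = q ^ (l + 1) := by rw [Nat.sub_add_cancel (by omega), pow_succ']
    have hal1y : al q 1 d y = al q 1 d (q ^ l) + al q 2 d (y - q ^ l) := by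
      have h : al q 1 d (q ^ l + (y - q ^ l)) = al q 1 d (q ^ l) + al q 2 d (y - q ^ l) :=
        hals q 1 d l (y - q ^ l) hq (by omega)
      rwa [Nat.add_sub_cancel' hyl] at h
    -- the claim on the second row
    have hD : ∀ m, al q 2 d (pp q (m + 1)) ≤ al q 1 d (q ^ m) := by
      intro m
      have h1 : al q 2 d (pp q (m + 1)) ≤ be q 1 d (pp q (m + 1)) := hbs q 1 d _ hq (by omega)
      rw [hbp q 1 d m hq (by omega)] at h1
      exact h1
    have hclaim : al q 2 d (q ^ l) + al q 2 d (n 1 - q ^ l) ≤ be q 1 d (n 1) := by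
      rcases Nat.eq_zero_or_pos l with hl | hl
      · subst hl
        rw [pow_zero] at *
        have h1 : be q 1 d (pp q (0 + 1) + (n 1 - 1)) =
            be q 1 d (pp q (0 + 1)) + al q 2 d (n 1 - 1) :=
          hbb q 1 d 0 (n 1 - 1) hq (by rw [zero_add, pow_one]; omega)
        have h2 := hD 0
        have h3 : be q 1 d (pp q (0 + 1)) = al q 1 d (q ^ 0) := hbp q 1 d 0 hq (by omega)
        rw [zero_add, p1] at h1 h2 h3
        rw [Nat.add_sub_cancel' (by omega : 1 ≤ n 1)] at h1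
        omega
      · obtain ⟨m, rfl⟩ : ∃ m, l = m + 1 := ⟨l - 1, by omega⟩
        by_cases hbig : pp q (m + 1 + 1) ≤ n 1
        · obtain ⟨x', hx'⟩ : ∃ x', n 1 = pp q (m + 1 + 1) + x' := ⟨n 1 - pp q (m + 1 + 1), by omega⟩
          have h1 : be q 1 d (pp q (m + 1 + 1) + x') =
              be q 1 d (pp q (m + 1 + 1)) + al q 2 d x' := hbb q 1 d (m + 1) x' hq (by omega)
          have h2 : be q 1 d (pp q (m + 1 + 1)) = al q 1 d (q ^ (m + 1)) :=
            hbp q 1 d (m + 1) hq (by omega)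
          have h3 : al q 1 d (q ^ (m + 1)) = al q 1 d (q ^ m) + al q 2 d (q ^ (m + 1)) :=
            halp q 1 d m hq (by omega)
          have h4 := hD m
          have h5 := halsub q 2 d (pp q (m + 1)) x' hq
          have h6 : n 1 - q ^ (m + 1) = pp q (m + 1) + x' := by
            rw [hx', p3 q (m + 1)]
            omega
          rw [h6, hx', h1, h2, h3]
          omega
        · push Not at hbig
          have e1 := p3 q (m + 1)
          have e2 := p3 q m
          have e3 := p5 q m hq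
          have e4 : q ^ (m + 1) = q * q ^ m := pow_succ' q m
          have e5 : 2 * pp q m ≤ (q - 1) * pp q m := Nat.mul_le_mul_right _ (by omega)
          have hle : pp q (m + 1) ≤ n 1 := by
            have : q * q ^ m ≥ 3 * q ^ m := Nat.mul_le_mul_right _ hq3
            omega
          obtain ⟨x', hx'⟩ : ∃ x', n 1 = pp q (m + 1) + x' := ⟨n 1 - pp q (m + 1), by omega⟩
          have h1 : be q 1 d (pp q (m + 1) + x') =
              be q 1 d (pp q (m + 1)) + al q 2 d x' := hbb q 1 d m x' hq (by omega)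
          have h2 : be q 1 d (pp q (m + 1)) = al q 1 d (q ^ m) := hbp q 1 d m hq (by omega)
          have h3 : al q 2 d x' = al q 2 d (q ^ (m + 1)) := by
            by_cases hd3 : 2 ≤ d
            · apply halsat q 2 d m x' hq hd3 (by omega)
              · have h7 : (d - 2) * q ^ m + 3 * q ^ m ≤ q * q ^ m := by
                  rw [← add_mul]
                  exact Nat.mul_le_mul_right _ (by omega)
                omega
              · omega
            · rw [halb.2.2.2.1 q 2 d x' (by omega), halb.2.2.2.1 q 2 d _ (by omega)]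
          have h4 := hD m
          have h5 := halb.1 q 2 d (n 1 - q ^ (m + 1)) (pp q (m + 1)) (by omega)
          rw [hx', h1, h2, h3, ← hx']
          omega
    have hmono23 := halb.2.1 q 2 3 d
    have hz1 := hmono23 (y - q ^ l) (by omega)
    have hz2 := hmono23 (n 1 - q ^ l) (by omega)
    have hs1 := halsub q 3 d (y - q ^ l + (n 1 - q ^ l)) E1 hq
    have hs2 := halsub q 3 d (y - q ^ l) (n 1 - q ^ l) hq
    have hr2 : r = q ^ l + (q ^ l + (y - q ^ l + (n 1 - q ^ l) + E1)) := by omega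
    have ha1 : al q 1 d r = al q 1 d (q ^ l) +
        al q 2 d (q ^ l + (y - q ^ l + (n 1 - q ^ l) + E1)) := by
      conv_lhs => rw [hr2]
      exact hals q 1 d l _ hq (by omega)
    have ha2 : al q 2 d (q ^ l + (y - q ^ l + (n 1 - q ^ l) + E1)) = al q 2 d (q ^ l) +
        al q 3 d (y - q ^ l + (n 1 - q ^ l) + E1) := hals q 2 d l _ hq (by omega)
    omega
  refine ⟨?_, hmain⟩
  by_contra hl
  have hl0 : l = 0 := by omega
  subst hl0
  rw [pow_zero] at hmain hrd
  have h1 : r ≤ cc q n := by omega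
  have h2 : r < q := by omega
  have h3 : (q - 1) * r ≤ (q - 1) * cc q n := Nat.mul_le_mul_left _ h1
  have h4 : q * (r - 1) + q = (q - 1) * r + r := by
    obtain ⟨q', rfl⟩ : ∃ q', q = q' + 1 := ⟨q - 1, by omega⟩
    obtain ⟨r', rfl⟩ : ∃ r', r = r' + 1 := ⟨r - 1, by omega⟩
    simp only [Nat.add_sub_cancel]
    ring
  omega

theorem v3_of (halb : AlBasic) (halp : AlPow) (hpp : PpBasic) (hbe : BeBasic) (hbb : BeBlock)
    (hbp : BePP) (hbc : BeCan) (htg : TotGe) (hv1 : V1) : V3 := by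
  intro l r N n hpar hrows hbad
  obtain ⟨hq, hdq, -, hd1, hr1, hrd, hN⟩ := id hpar
  obtain ⟨hanti, -, hsum⟩ := id hrows
  obtain ⟨p0, p1, p3, p4, p5, p6⟩ := id hpp
  obtain ⟨hX, hcr, hrn, -⟩ := hv1 3 2 l r N 0 n hpar hrows hbad
  have hNe := V.Neq hpp hpar
  by_contra hcon
  push Not at hcon
  have hcc : cc 3 n = n 1 + n 2 := by
    unfold cc
    rw [V.split2 hq, sum_Ico_eq_sum_range]
    simp
  rw [V.split1 hq] at hsum
  have hcc' : cc 3 n = ∑ i ∈ Ico 1 3, n i := rfl
  rw [← hcc'] at hsum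
  obtain ⟨y, hy⟩ : ∃ y, r = y + cc 3 n := ⟨r - cc 3 n, by omega⟩
  have hn0 : n 0 = pp 3 (l + 2) + y := by omega
  have hyn1 : y < n 1 := by omega
  have hn21 : n 2 ≤ n 1 := hanti (by omega)
  have hpow : 3 ^ l * 9 = 3 ^ (l + 2) := by rw [pow_add]; norm_num
  have hpos : 0 < 3 ^ l := by positivity
  have hb0 := V.first_row hbb hbp (l := l) (y := y) hq hdq (by omega)
  have hkey := V.key htg hbc hpar hrows hbad (al 3 1 2 y) (by rw [hn0, hb0])
  rw [V.split2 hq, sum_Ico_eq_sum_range] at hkey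
  simp only [show 3 - 2 = 1 from rfl, range_one, sum_singleton, add_zero] at hkey
  have hone := halb.2.2.2.2.2.2
  have hge := halb.2.2.2.2.2.1
  have hal : ∀ k, al 3 1 2 (3 ^ k) = k + 1 := by
    intro k
    induction k with
    | zero => decide
    | succ k ih =>
      have h8 : al 3 1 2 (3 ^ (k + 1)) = al 3 1 2 (3 ^ k) + al 3 2 2 (3 ^ (k + 1)) :=
        halp 3 1 2 k hq (by omega)
      rw [h8, ih, hone 3 2 (3 ^ (k + 1)) hq (Nat.one_le_pow _ _ (by norm_num))]
  -- the block of the second row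
  have hex : ∃ m, pp 3 (m + 1) < n 1 ∧ n 1 ≤ pp 3 (m + 2) := by
    have hfind : ∃ k, n 1 ≤ pp 3 k := by
      refine ⟨n 1, ?_⟩
      have h1 := p5 3 (n 1) hq
      have h2 : ∀ k, 2 * k + 1 ≤ 3 ^ k := by
        intro k
        induction k with
        | zero => norm_num
        | succ k ih => rw [pow_succ]; omega
      have h3 := h2 (n 1)
      omega
    classical
    obtain ⟨h1, h2⟩ : n 1 ≤ pp 3 (Nat.find hfind) ∧ ∀ k, k < Nat.find hfind → ¬ n 1 ≤ pp 3 k :=
      ⟨Nat.find_spec hfind, fun k hk => Nat.find_min hfind hk⟩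
    set k := Nat.find hfind with hk
    have hk2 : 2 ≤ k := by
      by_contra h
      have : k = 0 ∨ k = 1 := by omega
      rcases this with h3 | h3
      · rw [h3, p0] at h1
        omega
      · rw [h3, p1] at h1
        have := hge 3 1 2 y (by omega) (by omega)
        omega
    refine ⟨k - 2, ?_, ?_⟩
    · have h3 := h2 (k - 1) (by omega)
      rw [show k - 2 + 1 = k - 1 by omega]
      omega
    · rw [show k - 2 + 2 = k by omega]
      exact h1
  obtain ⟨m, hm1, hm2⟩ := hex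
  have hbe1 : m + 2 ≤ be 3 1 2 (n 1) := by
    have h1 : be 3 1 2 (pp 3 (m + 1) + 1) = be 3 1 2 (pp 3 (m + 1)) + al 3 2 2 1 :=
      hbb 3 1 2 m 1 hq (Nat.one_le_pow _ _ (by norm_num))
    have h2 : be 3 1 2 (pp 3 (m + 1)) = al 3 1 2 (3 ^ m) := hbp 3 1 2 m hq (by omega)
    have h3 := hone 3 2 1 hq le_rfl
    have h4 := hbe.1 3 1 2 (pp 3 (m + 1) + 1) (n 1) hm1
    rw [h1, h2, hal m, h3] at h4
    exact h4
  have hy1 := hge 3 1 2 y (by omega) (by omega)
  have e1 := p5 3 (m + 2) hq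
  by_cases hn2 : n 2 = 0
  · have h1 := halb.1 3 1 2 r (3 ^ (m + 2)) (by omega)
    rw [hal] at h1
    omega
  · have h1 : be 3 2 2 (n 2) ≥ 1 := hbe.2.2.2.2.2.1 3 2 2 (n 2) le_rfl (by omega)
    have h2 : 3 ^ (m + 3) = 3 * 3 ^ (m + 2) := by rw [pow_succ]; ring
    have h3 := halb.1 3 1 2 r (3 ^ (m + 3)) (by omega)
    rw [hal] at h3
    omega

end Pool.Agent.W646.ER
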