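import Pool.Agent.W477.ER.Stm

/-!
# The lemma V2B of the project ER
-/

set_option autoImplicit false

namespace Pool.Agent.W646.ER

open Finset Pool.Agent.W477.ER

namespace V2B

/-- the value of xx in one block -/
theorem xx_block (hpp : PpBasic) {q l n : ℕ} (hq : 2 ≤ q) (h1 : pp q l < n)
    (h2 : n < pp q (l + 1)) (h3 : n ≤ q ^ l + pp q (l - 1)) : xx q n = n - pp q (l - 1) := by
  obtain ⟨-, -, p3, p4, p5, p6⟩ := hpp
  have e1 := p5 q l hq
  have e2 := p5 q (l + 1) hq
  have hL : Nat.log q ((q - 1) * n + 1) = l := by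
    rw [Nat.log_eq_iff (Or.inr ⟨by omega, by omega⟩)]
    constructor
    · have : (q - 1) * pp q l ≤ (q - 1) * n := Nat.mul_le_mul_left _ h1.le
      omega
    · have : (q - 1) * n < (q - 1) * pp q (l + 1) := Nat.mul_lt_mul_of_pos_left h2 (by omega)
      omega
  unfold xx
  rw [hL]
  omega

/-- sums over rows with index at least two -/
theorem sum_xx (hgg : GgBasic) (hxx : XxBasic) {q : ℕ} (hq : 2 ≤ q) (n : ℕ → ℕ)
    (s : Finset ℕ) : ∑ i ∈ s, n i ≤ ∑ i ∈ s, xx q (n i) + gg q (∑ i ∈ s, xx q (n i)) := by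
  classical
  induction s using Finset.induction_on with
  | empty => simp
  | insert a s ha ih =>
    rw [sum_insert ha, sum_insert ha]
    have h1 := hxx.2.2.2.2.2.2.1 q (n a) hq
    have h2 := hgg.2.2.2.1 q (xx q (n a)) (∑ i ∈ s, xx q (n i)) hq
    omega

/-- layers with a first row and the rows from two on -/
theorem lay_Z (hlay : LAY) (hbx : BeX1) (hxx : XxBasic) {q d Z : ℕ} (hq : 2 ≤ q) (hd : d < q)
    (n : ℕ → ℕ) (hn : Antitone n) (hZ : xx q (n 2) ≤ Z) :
    al q 1 d (Z + ∑ i ∈ Ico 2 q, xx q (n i)) ≤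
      al q 1 d Z + ∑ i ∈ Ico 2 q, be q i d (n i) := by
  obtain ⟨m, rfl⟩ : ∃ m, q = m + 2 := ⟨q - 2, by omega⟩
  have hxm : ∀ i j, i ≤ j → xx (m + 2) (n j) ≤ xx (m + 2) (n i) :=
    fun i j hij => hxx.1 _ _ _ hq (hn hij)
  have h := hlay (m + 2) (m + 1) 1 d (fun j => if j = 0 then Z else xx (m + 2) (n (j + 1))) hq
    (by omega) (by
      intro i j hij
      by_cases hi : i = 0
      · by_cases hj : j = 0
        · simp [hi, hj]
        · simp only [hi, hj, if_true, if_false]
          exact (hxm 2 (j + 1) (by omega)).trans hZ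
      · have hj : j ≠ 0 := by omega
        simp only [hi, hj, if_false]
        exact hxm _ _ (by omega))
  rw [sum_range_succ', sum_range_succ'] at h
  simp only [Nat.succ_ne_zero, if_true, if_false] at h
  have e1 : ∑ i ∈ Ico 2 (m + 2), xx (m + 2) (n i) = ∑ k ∈ range m, xx (m + 2) (n (k + 1 + 1)) := by
    rw [sum_Ico_eq_sum_range]
    refine sum_congr (by simp) fun k _ => ?_
    rw [show 2 + k = k + 1 + 1 by ring]
  have e2 : ∑ i ∈ Ico 2 (m + 2), be (m + 2) i d (n i) =
      ∑ k ∈ range m, be (m + 2) (k + 1 + 1) d (n (k + 1 + 1)) := by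
    rw [sum_Ico_eq_sum_range]
    refine sum_congr (by simp) fun k _ => ?_
    rw [show 2 + k = k + 1 + 1 by ring]
  have h3 : ∑ k ∈ range m, al (m + 2) (1 + (k + 1)) d (xx (m + 2) (n (k + 1 + 1))) ≤
      ∑ k ∈ range m, be (m + 2) (k + 1 + 1) d (n (k + 1 + 1)) := by
    refine sum_le_sum fun k _ => ?_
    rw [show 1 + (k + 1) = k + 1 + 1 by ring]
    exact hbx (m + 2) (k + 1 + 1) d (n (k + 1 + 1)) hq (by omega)
  rw [e1, e2, add_comm Z, add_comm (al (m + 2) 1 d Z)]
  exact h.trans (Nat.add_le_add_right h3 _)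

end V2B

theorem v2B_of (hlay : LAY) (halb : AlBasic) (halp : AlPow) (hals : AlShift) (halw : AlW)
    (hgg : GgBasic) (hpp : PpBasic) (hbb : BeBlock) (hbp : BePP) (hbs : BeShift) (hbx : BeX1)
    (hxx : XxBasic) (hbc : BeCan) (hc1 : C1) (hv2 : V2) : V2B := by
  intro q d l r N n hq4 hl hlr hpar hrows hn1 hbad
  by_contra hcon
  push Not at hcon
  obtain ⟨hA, hB⟩ := hcon
  obtain ⟨-, hdq, -, hd1, hr1, hrd, hN⟩ := id hpar
  obtain ⟨hanti, -, hsum⟩ := id hrows
  have hq : 2 ≤ q := by omega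
  obtain ⟨p0, p1, p3, p4, p5, p6⟩ := id hpp
  have hgood1 := hc1 q d l 1 r N 0 n hpar hrows
  have hn0lt : n 0 < pp q (l + 2) + n 1 := by
    by_contra h
    push Not at h
    exact absurd (hgood1 h) (by omega)
  obtain ⟨-, hrc⟩ := hv2 q d l r N n (by omega) hpar hrows hbad
  set W := q ^ (l - 1) with hW
  set E1 := ∑ i ∈ Ico 2 q, n i with hE1
  have hAW : q ^ l = q * W := by
    rw [hW, ← pow_succ', Nat.sub_add_cancel hl]
  have hcc : cc q n = n 1 + E1 := by
    unfold cc
    rw [sum_eq_sum_Ico_succ_bot (by omega : 1 < q)]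
  rw [hcc] at hrc
  have hsplit : ∀ f : ℕ → ℕ, ∑ i ∈ range q, f i = f 0 + (f 1 + ∑ i ∈ Ico 2 q, f i) := by
    intro f
    rw [range_eq_Ico, sum_eq_sum_Ico_succ_bot (by omega : 0 < q),
      sum_eq_sum_Ico_succ_bot (by omega : 0 + 1 < q)]
  have hs2 := hsplit n
  have hNe : N = pp q (l + 2) + r := by
    rw [hN, p3 q (l + 1)]
    ring
  obtain ⟨y, hy⟩ : ∃ y, r = y + (n 1 + E1) := ⟨r - (n 1 + E1), by omega⟩
  have hn0 : n 0 = pp q (l + 2) + y := by omega
  have hyn1 : y < n 1 := by omega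
  have hyE : E1 + W ≤ y := by omega
  have hWpos : 0 < W := by positivity
  have hApos : q ^ l ≤ q ^ (l + 1) := Nat.pow_le_pow_right (by omega) (by omega)
  have hA2 : q ^ l ≤ q ^ (l + 1 + 1) := Nat.pow_le_pow_right (by omega) (by omega)
  -- the key inequality
  have hkey : al q 1 d y + (be q 1 d (n 1) + ∑ i ∈ Ico 2 q, be q i d (n i)) < al q 1 d r := by
    have h1 : be q 0 d (pp q (l + 2) + y) = be q 0 d (pp q (l + 2)) + al q 1 d y :=
      hbb q 0 d (l + 1) y hq (by omega)
    have h2 : be q 0 d (pp q (l + 2)) = al q 0 d (q ^ (l + 1)) :=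
      hbp q 0 d (l + 1) hq (by omega)
    have h3 := (hbc q d l 1 r hq hdq le_rfl hd1 hrd).1
    rw [Nat.sub_self, zero_mul, zero_add, ← hN] at h3
    unfold tot at hbad
    rw [if_pos rfl, hsplit, hn0, h1, h2, h3] at hbad
    omega
  set x1 := xx q (n 1) with hx1
  set W2 := ∑ i ∈ Ico 2 q, xx q (n i) with hW2
  have hx1be : al q 1 d x1 ≤ be q 1 d (n 1) := hbx q 1 d (n 1) hq (by omega)
  have hx21 : xx q (n 2) ≤ x1 := hxx.1 _ _ _ hq (hanti (by omega))
  have hW2E : W2 ≤ E1 := sum_le_sum fun i _ => hxx.2.2.2.2.2.1 q (n i) hq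
  have hE1W2 : E1 ≤ W2 + gg q W2 := V2B.sum_xx hgg hxx hq n _
  have hx1n : n 1 ≤ x1 + pp q (l - 1) := by
    apply hxx.2.2.2.2.2.2.2.1 q (n 1) (l - 1) hq
    rw [Nat.sub_add_cancel hl]
    exact hn1
  have hgmono := hgg.2.2.2.2
  have hgadd := hgg.2.2.2.1
  have hgW : gg q W = pp q (l - 1) := hgg.2.2.1 q (l - 1) hq
  -- the criterion
  have hZ : ∀ Z, xx q (n 2) ≤ Z → al q 1 d Z ≤ al q 1 d y + al q 1 d x1 → Z + W2 < r := by
    intro Z hZ1 hZ2
    by_contra h
    push Not at h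
    have h1 : al q 1 d (Z + W2) ≤ al q 1 d Z + ∑ i ∈ Ico 2 q, be q i d (n i) :=
      V2B.lay_Z hlay hbx hxx hq hdq n hanti hZ1
    have h2 := halb.1 q 1 d r _ h
    omega
  by_cases hcase : y ≤ x1
  · have h1 := halw q 1 d y x1 hq (by omega) hcase
    have h2 := hZ (y + x1 + gg q y) (by omega) h1
    have h3 := hgmono q (E1 + W) y hq hyE
    have h4 := hgadd q E1 W hq
    have h5 := hgmono q W2 E1 hq hW2E
    omega
  · push Not at hcase
    have e1 := p5 q l hq
    have e2 := p5 q (l - 1) hq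
    have e3 := p3 q (l - 1)
    rw [Nat.sub_add_cancel hl] at e3
    have e4 := p3 q l
    set P := pp q l with hP
    set P' := pp q (l - 1) with hP'
    rw [← hW] at e2 e3
    have e5 : 3 * P ≤ (q - 1) * P := Nat.mul_le_mul_right P (by omega)
    have e6 : 3 * P' ≤ (q - 1) * P' := Nat.mul_le_mul_right P' (by omega)
    have hPn : P < n 1 := by omega
    have hx1e : x1 = n 1 - P' := V2B.xx_block hpp hq hPn (by omega) hn1
    obtain ⟨x', hx'⟩ : ∃ x', n 1 = P + x' := ⟨n 1 - P, by omega⟩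
    have hx1e' : x1 = W + x' := by omega
    have hx'pos : 1 ≤ x' := by omega
    have hgx : gg q x' + W2 < E1 := by
      by_contra h
      push Not at h
      have h1 := halw q 1 d x1 y hq (by omega) hcase.le
      have h2 := hZ (x1 + y + gg q x1) (by omega) (by omega)
      have h3 := hgadd q W x' hq
      rw [← hx1e'] at h3
      omega
    have hW2x : x' < W2 := by
      by_contra h
      push Not at h
      have h1 := hgmono q W2 x' hq h
      omega
    have hq5 : q < 5 := by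
      by_contra h
      push Not at h
      have := hB h
      omega
    have hq4' : q = 4 := by omega
    subst hq4'
    have hx'W : x' < W := by
      by_contra h
      push Not at h
      have h1 := hgmono 4 W x' hq h
      omega
    obtain ⟨y', hy'⟩ : ∃ y', y = W + y' := ⟨y - W, by omega⟩
    -- the values
    have hb1 : be 4 1 d (n 1) = al 4 1 d W + al 4 2 d x' := by
      have h1 := hbb 4 1 d (l - 1) x' hq (by rw [Nat.sub_add_cancel hl]; omega)
      have h2 := hbp 4 1 d (l - 1) hq (by omega)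
      rw [Nat.sub_add_cancel hl] at h1 h2
      rw [hx', h1, h2]
    have hay : al 4 1 d y = al 4 1 d W + al 4 2 d y' := by
      rw [hy']
      exact hals 4 1 d (l - 1) y' hq (by rw [← hW]; omega)
    have hB2 : al 4 3 d E1 ≤ ∑ i ∈ Ico 2 4, be 4 i d (n i) := by
      have h1 := hlay 4 2 3 d (fun j => n (2 + j)) hq (by omega)
        (fun i j hij => hanti (by omega))
      have h2 : al 4 3 d (n 2) ≤ be 4 2 d (n 2) := hbs 4 2 d (n 2) hq (by omega)
      have h3 : al 4 4 d (n 3) ≤ be 4 3 d (n 3) := hbs 4 3 d (n 3) hq (by omega)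
      have h4 : E1 = n 2 + n 3 := by
        rw [hE1, sum_Ico_eq_sum_range]
        simp [sum_range_succ]
      have h5 : ∑ i ∈ Ico 2 4, be 4 i d (n i) = be 4 2 d (n 2) + be 4 3 d (n 3) := by
        rw [sum_Ico_eq_sum_range]
        simp [sum_range_succ]
      rw [h5, h4]
      simp only [sum_range_succ, range_zero, sum_empty, zero_add, add_zero] at h1
      have h6 : al 4 3 d (n 2 + n 3) ≤ al 4 3 d (n 2) + al 4 4 d (n 3) := h1
      omega
    have hT : 2 * al 4 1 d W + al 4 2 d x' + al 4 2 d y' + al 4 3 d E1 < al 4 1 d r := by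
      omega
    have hone := halb.2.2.2.2.2.2
    have hge := halb.2.2.2.2.2.1
    have hl1 : 4 ^ l = 4 ^ (l - 1 + 1) := by rw [Nat.sub_add_cancel hl]
    have hd : d = 1 ∨ d = 2 ∨ d = 3 := by omega
    rcases hd with rfl | rfl | rfl
    · omega
    · have h1 : r = 4 ^ l + 1 := by omega
      have h2 := halb.2.2.1 4 1 2 (4 ^ l)
      have h3 : al 4 1 2 (4 ^ (l - 1 + 1)) = al 4 1 2 (4 ^ (l - 1)) +
          al 4 2 2 (4 ^ (l - 1 + 1)) := halp 4 1 2 (l - 1) hq (by omega)
      have h4 := hone 4 2 (4 ^ (l - 1 + 1)) hq (Nat.one_le_pow _ _ (by norm_num))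
      have h5 := hone 4 2 x' hq hx'pos
      have h6 := hone 4 2 y' hq (by omega)
      rw [← h1, hl1, h3, ← hW] at h2
      omega
    · obtain ⟨z, hz⟩ : ∃ z, r = 4 ^ l + z := ⟨r - 4 ^ l, by omega⟩
      have hz4 : z ≤ 4 ^ l := by omega
      have h2 : al 4 1 3 (4 ^ l + z) = al 4 1 3 (4 ^ l) + al 4 2 3 z :=
        hals 4 1 3 l z hq (by omega)
      have h3 : al 4 1 3 (4 ^ (l - 1 + 1)) = al 4 1 3 (4 ^ (l - 1)) +
          al 4 2 3 (4 ^ (l - 1 + 1)) := halp 4 1 3 (l - 1) hq (by omega)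
      rw [← hl1, ← hW] at h3
      have h4 := halb.1 4 2 3 z (4 ^ l) hz4
      have h5 := hge 4 2 3 x' (by omega) hx'pos
      have h6 := hge 4 2 3 y' (by omega) (by omega)
      have h7 := hge 4 3 3 E1 (by omega) (by omega)
      have hb : ∀ m, al 4 2 3 (4 ^ m) = m + 1 := by
        intro m
        induction m with
        | zero => decide
        | succ m ih =>
          rw [halp 4 2 3 m hq (by omega), ih, hone 4 3 (4 ^ (m + 1)) hq (Nat.one_le_pow _ _ (by norm_num))]
      have ha : ∀ m, 2 * m + 1 ≤ al 4 1 3 (4 ^ m) := by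
        intro m
        induction m with
        | zero => decide
        | succ m ih =>
          have h8 : al 4 1 3 (4 ^ (m + 1)) = al 4 1 3 (4 ^ m) + al 4 2 3 (4 ^ (m + 1)) :=
            halp 4 1 3 m hq (by omega)
          rw [h8, hb]
          omega
      have h8 := hb l
      have h9 := ha (l - 1)
      rw [← hW] at h9
      rw [hz] at hT
      omega

end Pool.Agent.W646.ER
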